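import Pool.Agent.Y271.RO.Stm

/-! `S_NOR`: chains of the multiplication operator itself. -/

set_option autoImplicit false

namespace Pool.Agent.Y442.RO.NOR

open MeasureTheory Set Metric Filter Topology
open scoped InnerProductSpace ENNReal NNReal ComplexConjugate ContDiff
open Pool.Agent.Y283.NK (ct IsMul HasHyp)
open Pool.Agent.Y271.RO

section
variable {S : Type} [MeasurableSpace S] {μ : Measure S} {φ : S → ℂ}
  {N : Lp ℂ 2 μ →L[ℂ] Lp ℂ 2 μ}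

/-- the operator `N - a` -/
noncomputable def Ma (N : Lp ℂ 2 μ →L[ℂ] Lp ℂ 2 μ) (a : ℂ) : Lp ℂ 2 μ →L[ℂ] Lp ℂ 2 μ :=
  N - a • (1 : Lp ℂ 2 μ →L[ℂ] Lp ℂ 2 μ)

theorem Ma_apply (a : ℂ) (y : Lp ℂ 2 μ) : Ma N a y = N y - a • y := rfl

theorem Ma_ae (hN : IsMul φ N) (a : ℂ) (y : Lp ℂ 2 μ) :
    ⇑(Ma N a y) =ᵐ[μ] fun s => (φ s - a) * y s := by
  rw [Ma_apply]
  filter_upwards [Lp.coeFn_sub (N y) (a • y), Lp.coeFn_smul a y, hN.eq y] with s h1 h2 h3
  rw [h1, Pi.sub_apply, h2, h3, Pi.smul_apply, smul_eq_mul]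
  ring

theorem step (hN : IsMul φ N) {a : ℂ} {r : ℝ} (y : Lp ℂ 2 μ)
    (hy : ∀ᵐ s ∂μ, φ s ∉ ball a r → y s = 0) :
    ‖Ma N a y‖ ≤ r * ‖y‖ ∧ ∀ᵐ s ∂μ, φ s ∉ ball a r → Ma N a y s = 0 := by
  constructor
  · refine Lp.norm_le_mul_norm_of_ae_le_mul ?_
    filter_upwards [hy, Ma_ae hN a y] with s h1 h2
    rw [h2, norm_mul]
    by_cases hs : φ s ∈ ball a r
    · rw [mem_ball, dist_eq_norm] at hs
      exact mul_le_mul_of_nonneg_right hs.le (norm_nonneg _)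
    · rw [h1 hs]
      simp
  · filter_upwards [hy, Ma_ae hN a y] with s h1 h2 hs
    rw [h2, h1 hs, mul_zero]

end

theorem main : S_NOR := by
  intro S _ μ _ φ N hN a r hr hE
  obtain ⟨e, he1, -, he2, -⟩ := hE
  have hA : MeasurableSet {s | φ s ∈ ball a r} := hN.meas measurableSet_ball
  -- a vector on which `N - a` is small
  have hev : ∀ᶠ n in atTop, ‖N (e n) - a • e n‖ < r := by
    have h1 : Tendsto (fun n => ‖N (e n) - a • e n‖) atTop (𝓝 0) := by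
      have h2 := he2.norm
      rwa [norm_zero] at h2
    exact h1.eventually (gt_mem_nhds hr)
  obtain ⟨n, hn⟩ := hev.exists
  have hmem : MemLp ({s | φ s ∈ ball a r}.indicator (⇑(e n))) 2 μ := (Lp.memLp (e n)).indicator hA
  set x : Lp ℂ 2 μ := hmem.toLp _ with hx
  have hxae : ⇑x =ᵐ[μ] {s | φ s ∈ ball a r}.indicator (⇑(e n)) := hmem.coeFn_toLp
  have hx0 : x ≠ 0 := by
    intro h0
    have h1 : ∀ᵐ s ∂μ, ‖(e n) s‖ ≤ r⁻¹ * ‖(Ma N a (e n)) s‖ := by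
      have h2 : ⇑x =ᵐ[μ] 0 := by
        rw [h0]
        exact Lp.coeFn_zero _ _ _
      filter_upwards [hxae, h2, Ma_ae hN a (e n)] with s h3 h4 h5
      rw [h5, norm_mul]
      by_cases hs : φ s ∈ ball a r
      · rw [h3, Set.indicator_of_mem (show s ∈ {s | φ s ∈ ball a r} from hs)] at h4
        rw [h4]
        simp
      · rw [mem_ball, dist_eq_norm, not_lt] at hs
        calc ‖(e n) s‖ = r⁻¹ * (r * ‖(e n) s‖) := by
              rw [← mul_assoc, inv_mul_cancel₀ hr.ne', one_mul]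
          _ ≤ r⁻¹ * (‖φ s - a‖ * ‖(e n) s‖) := by
              refine mul_le_mul_of_nonneg_left ?_ (inv_nonneg.2 hr.le)
              exact mul_le_mul_of_nonneg_right hs (norm_nonneg _)
    have h6 := Lp.norm_le_mul_norm_of_ae_le_mul h1
    rw [he1 n] at h6
    have h7 : r⁻¹ * ‖Ma N a (e n)‖ < r⁻¹ * r := mul_lt_mul_of_pos_left hn (inv_pos.2 hr)
    rw [inv_mul_cancel₀ hr.ne'] at h7
    linarith
  have hcar : ∀ᵐ s ∂μ, φ s ∉ ball a r → x s = 0 := by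
    filter_upwards [hxae] with s h1 hs
    rw [h1, Set.indicator_of_notMem (show s ∉ {s | φ s ∈ ball a r} from hs)]
  have hind : ∀ k : ℕ, ‖(Ma N a)^[k] x‖ ≤ ‖x‖ * r ^ k ∧
      ∀ᵐ s ∂μ, φ s ∉ ball a r → ((Ma N a)^[k] x) s = 0 := by
    intro k
    induction k with
    | zero => exact ⟨by simp, hcar⟩
    | succ k ih =>
      obtain ⟨h1, h2⟩ := step hN _ ih.2
      rw [Function.iterate_succ_apply']
      refine ⟨h1.trans ?_, h2⟩
      calc r * ‖(Ma N a)^[k] x‖ ≤ r * (‖x‖ * r ^ k) := mul_le_mul_of_nonneg_left ih.1 hr.le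
        _ = ‖x‖ * r ^ (k + 1) := by ring
  refine ⟨fun k => (Ma N a)^[k] x, ⟨fun k => ?_, ‖x‖, fun k => (hind k).1⟩, hx0⟩
  show _ = (Ma N a)^[k + 1] x
  rw [Function.iterate_succ_apply']
  rfl

end Pool.Agent.Y442.RO.NOR
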